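import Pool.Agent.W2helper15.GM.Meas

/-!
# The graph measures of the maps `Psi` are bounded; the graph measure of the limit is infinite
-/

set_option autoImplicit false

namespace Pool.Agent.W2helper15.GM

open Finset Filter Topology MeasureTheory Measure

open scoped ENNReal NNReal

variable {d : ℕ} (c : Four d)

lemma geo4 (n : ℕ) : ∑ m ∈ range n, (1 / 4 : ℝ) ^ m ≤ 4 / 3 := by
  have h : ∀ n : ℕ, ∑ m ∈ range n, (1 / 4 : ℝ) ^ m = 4 / 3 * (1 - (1 / 4) ^ n) := by
    intro n
    induction n with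
    | zero => simp
    | succ n ih => rw [sum_range_succ, ih, pow_succ]; ring
  rw [h]
  have : (0 : ℝ) ≤ (1 / 4) ^ n := by positivity
  linarith

lemma dyadic (J : ℕ) (s : ℝ) (hs1 : s ≤ 1) :
    2 ^ J * s ≤ 1 ∨ ∃ m < J, 1 / 2 ≤ 2 ^ m * s ∧ 2 ^ m * s ≤ 1 := by
  induction J with
  | zero => left; simpa using hs1
  | succ J ih =>
    rcases ih with h | ⟨m, hm, h⟩
    · by_cases h2 : 2 ^ (J + 1) * s ≤ 1
      · exact Or.inl h2
      · right
        refine ⟨J, by omega, ?_, h⟩
        rw [pow_succ] at h2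
        linarith
    · exact Or.inr ⟨m, by omega, h⟩

/-- the point of view of the child `i` -/
lemma child_pt {z : ℝ} (hz : 0 < z) (x x0 : P) (i : I8) :
    z • (x - x0) - pos i = z • (x - (x0 + z⁻¹ • pos i)) := by
  rw [sub_add_eq_sub_sub, smul_sub, smul_sub z (x - x0), smul_smul, mul_inv_cancel₀ hz.ne', one_smul,
    smul_sub]

lemma up (k j : ℕ) (z : ℝ) (hz : 4 ≤ z) (x0 q : P) (hq : ‖q‖ ≤ 1 / 2 - (1 / 2) ^ (j + 1)) :
    H c (fun x => q + (1 / 2 : ℝ) • Psi k j (z • (x - x0))) (Metric.closedBall x0 (1 / z)) ≤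
      (KK d : ℝ≥0∞) ^ (d : ℝ) * ENNReal.ofReal (6 / z ^ 2 + 32 * (1 / 16) ^ j) := by
  induction k generalizing j z x0 q with
  | zero =>
    have hz0 : 0 < z := by linarith
    have hp : (0 : ℝ) ≤ (1 / 2) ^ (j + 1) := by positivity
    refine (upper c _ _ x0 (1 / z) 0 (by positivity) le_rfl ?_ ?_ ?_).trans ?_
    · intro x hx
      rw [← dist_eq_norm]; exact hx
    · intro x _ y _
      simp only [Psi_zero, sub_self, norm_zero]
      positivity
    · intro x _
      simp only [Psi_zero, smul_zero, add_zero]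
      linarith
    · gcongr
      have h1 : (2 * (1 + 0) * (1 / z)) ^ 2 = 4 / z ^ 2 := by
        field_simp
        norm_num
      rw [h1]
      have h2 : 4 / z ^ 2 ≤ 6 / z ^ 2 := by gcongr; norm_num
      have h3 : (0 : ℝ) ≤ 32 * (1 / 16) ^ j := by positivity
      linarith
  | succ k ih =>
    have hz0 : 0 < z := by linarith
    have hzf := zf_pos j
    have hzf16 := zf_ge j
    obtain ⟨J, hJ⟩ : ∃ J, J = 4 ^ j := ⟨_, rfl⟩
    have hJ1 : 1 ≤ J := by rw [hJ]; exact Nat.one_le_pow _ _ (by norm_num)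
    have hJr : (0 : ℝ) < J := by exact_mod_cast hJ1
    have hzfJ : zf j = 8 * 2 ^ J := by rw [hJ]; rfl
    obtain ⟨fn, hfn⟩ : ∃ fn : P → P, ∀ x, fn x = q + (1 / 2 : ℝ) • Psi (k + 1) j (z • (x - x0)) :=
      ⟨_, fun _ => rfl⟩
    have hfn' : (fun x => q + (1 / 2 : ℝ) • Psi (k + 1) j (z • (x - x0))) = fn :=
      funext fun x => (hfn x).symm
    rw [hfn']
    have hfb : ∀ x, ‖fn x‖ ≤ 1 / 2 := by
      intro x
      rw [hfn]
      refine (norm_add_le _ _).trans ?_
      rw [norm_smul, Real.norm_of_nonneg (by norm_num : (0 : ℝ) ≤ 1 / 2)]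
      have := Psi_norm (k + 1) j (z • (x - x0))
      rw [pow_succ] at hq
      linarith
    obtain ⟨ctr, hctr⟩ : ∃ ctr : I8 → P, ∀ i, ctr i = x0 + z⁻¹ • pos i := ⟨_, fun _ => rfl⟩
    have hpt : ∀ x i, z • (x - x0) - pos i = z • (x - ctr i) := fun x i => by
      rw [hctr]; exact child_pt hz0 x x0 i
    have hptn : ∀ x i, ‖z • (x - x0) - pos i‖ = z * ‖x - ctr i‖ := fun x i => by
      rw [hpt, norm_smul, Real.norm_of_nonneg hz0.le]
    -- the pieces
    obtain ⟨Flat, hFlat⟩ : ∃ Fl : Set P, ∀ x, x ∈ Fl ↔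
      (x ∈ Metric.closedBall x0 (1 / z) ∧ ∀ i, 1 / 8 ≤ ‖z • (x - x0) - pos i‖) :=
      ⟨{x | _}, fun _ => Iff.rfl⟩
    obtain ⟨An, hAn⟩ : ∃ An : I8 → ℕ → Set P, ∀ i m x, x ∈ An i m ↔
      (8 : ℝ) • (z • (x - x0) - pos i) ∈ Ann m := ⟨fun i m => {x | _}, fun _ _ _ => Iff.rfl⟩
    have hcover : Metric.closedBall x0 (1 / z) ⊆ Flat ∪ ⋃ i ∈ (univ : Finset I8),
        ((⋃ m ∈ range J, An i m) ∪ Metric.closedBall (ctr i) (1 / (zf j * z))) := by
      intro x hx
      by_cases h : ∀ i, 1 / 8 ≤ ‖z • (x - x0) - pos i‖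
      · exact Or.inl ((hFlat x).2 ⟨hx, h⟩)
      · right
        push Not at h
        obtain ⟨i, hi⟩ := h
        refine Set.mem_iUnion₂.2 ⟨i, mem_univ i, ?_⟩
        have h1 : ‖(8 : ℝ) • (z • (x - x0) - pos i)‖ ≤ 1 := by
          rw [norm_smul, Real.norm_of_nonneg (by norm_num : (0 : ℝ) ≤ 8)]
          linarith
        rcases dyadic J _ h1 with h2 | ⟨m, hm, h2⟩
        · right
          rw [mem_closedBall_iff_norm, le_div_iff₀ (by positivity)]
          rw [norm_smul, Real.norm_of_nonneg (by norm_num : (0 : ℝ) ≤ 8), hptn] at h2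
          rw [hzfJ]
          linarith
        · left
          exact Set.mem_iUnion₂.2 ⟨m, mem_range.2 hm, (hAn i m x).2 h2⟩
    -- the flat part
    have hF : H c fn Flat ≤ (KK d : ℝ≥0∞) ^ (d : ℝ) * ENNReal.ofReal (4 / z ^ 2) := by
      have hval : ∀ x ∈ Flat, fn x = q := by
        intro x hx
        rw [hfn, Psi_flat _ _ _ ((hFlat x).1 hx).2, smul_zero, add_zero]
      refine (upper c fn _ x0 (1 / z) 0 (by positivity) le_rfl ?_ ?_ ?_).trans ?_
      · intro x hx
        rw [← dist_eq_norm]; exact ((hFlat x).1 hx).1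
      · intro x hx y hy
        rw [hval x hx, hval y hy, sub_self, norm_zero]
        positivity
      · intro x _
        exact hfb x
      · gcongr
        refine le_of_eq ?_
        field_simp
        norm_num
    -- the annuli
    have hA : ∀ i, ∀ m ∈ range J, H c fn (An i m) ≤ (KK d : ℝ≥0∞) ^ (d : ℝ) *
        ENNReal.ofReal (1 / 8 / z ^ 2 * (1 / 4) ^ m + 2 * (1 / 4) ^ j / J ^ 2) := by
      intro i m hm
      have hm' := mem_range.1 hm
      have h2m : (1 : ℝ) ≤ 2 ^ m := one_le_pow₀ (by norm_num)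
      have h2m0 : (0 : ℝ) < 2 ^ m := by positivity
      have hnv : ∀ x, ‖(8 : ℝ) • (z • (x - x0) - pos i)‖ = 8 * (z * ‖x - ctr i‖) := by
        intro x
        rw [norm_smul, Real.norm_of_nonneg (by norm_num : (0 : ℝ) ≤ 8), hptn]
      have hval : ∀ x ∈ An i m, fn x = q + ((1 / 2 : ℝ) ^ (j + 1) *
          u J ((8 : ℝ) • (z • (x - x0) - pos i))) • dir i := by
        intro x hx
        have hx' := (hAn i m x).1 hx
        have h1 : ‖z • (x - x0) - pos i‖ ≤ 1 / 8 := by
          have h3 := hx'.2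
          rw [hnv] at h3
          rw [hptn]
          have h4 : 0 ≤ z * ‖x - ctr i‖ := by positivity
          nlinarith
        rw [hfn, Psi_child k j _ i h1, Psi_out k (j + 1) _ ?_, add_zero, smul_smul, ← hJ]
        · congr 2
          rw [pow_succ]; ring
        · rw [norm_smul, Real.norm_of_nonneg hzf.le, hptn, hzfJ]
          have h3 := hx'.1
          rw [hnv] at h3
          have h5 : (2 : ℝ) ^ (m + 1) ≤ 2 ^ J := pow_le_pow_right₀ (by norm_num) (by omega)
          rw [pow_succ] at h5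
          have h4 : 0 ≤ 8 * (z * ‖x - ctr i‖) := by positivity
          nlinarith
      refine (upper c fn _ (ctr i) (1 / (8 * z * 2 ^ m)) (4 * 2 ^ m * z * (1 / 2) ^ j / J)
        (by positivity) (by positivity) ?_ ?_ ?_).trans ?_
      · intro x hx
        have hx' := ((hAn i m x).1 hx).2
        rw [hnv] at hx'
        rw [le_div_iff₀ (by positivity)]
        linarith
      · intro x hx y hy
        rw [hval x hx, hval y hy, add_sub_add_left_eq_sub, ← sub_smul, norm_smul, dir_norm,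
          ← mul_sub, norm_mul, Real.norm_of_nonneg (by positivity : (0 : ℝ) ≤ (1 / 2) ^ (j + 1)),
          Real.norm_eq_abs]
        have h1 := u_ann (J := J) ((hAn i m x).1 hx) ((hAn i m y).1 hy)
        have h2 : (8 : ℝ) • (z • (x - x0) - pos i) - (8 : ℝ) • (z • (y - x0) - pos i) =
            (8 * z) • (x - y) := by
          rw [hpt, hpt, smul_smul, smul_smul, ← smul_sub]
          congr 1
          abel
        rw [h2, norm_smul, Real.norm_of_nonneg (by positivity : (0 : ℝ) ≤ 8 * z)] at h1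
        calc (1 / 2 : ℝ) ^ (j + 1) * |u J ((8 : ℝ) • (z • (x - x0) - pos i)) -
              u J ((8 : ℝ) • (z • (y - x0) - pos i))| * (1 / 2)
            ≤ (1 / 2 : ℝ) ^ (j + 1) * (2 * 2 ^ m / J * (8 * z * ‖x - y‖)) * (1 / 2) := by gcongr
          _ = 4 * 2 ^ m * z * (1 / 2) ^ j / J * ‖x - y‖ := by rw [pow_succ]; ring
      · intro x _
        exact hfb x
      · gcongr
        have e1 : 2 * (1 + 4 * 2 ^ m * z * (1 / 2) ^ j / J) * (1 / (8 * z * 2 ^ m)) =
            1 / (4 * z * 2 ^ m) + (1 / 2 : ℝ) ^ j / J := by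
          field_simp
          ring
        rw [e1]
        have e2 : 1 / 8 / z ^ 2 * (1 / 4 : ℝ) ^ m = 2 * (1 / (4 * z * 2 ^ m)) ^ 2 := by
          have : (1 / 4 : ℝ) ^ m = (1 / 2 ^ m) ^ 2 := by
            rw [div_pow, one_pow, div_pow, one_pow, ← pow_mul, mul_comm m 2, pow_mul]; norm_num
          rw [this]
          field_simp
          norm_num
        have e3 : 2 * (1 / 4 : ℝ) ^ j / J ^ 2 = 2 * ((1 / 2 : ℝ) ^ j / J) ^ 2 := by
          have : (1 / 4 : ℝ) ^ j = ((1 / 2) ^ j) ^ 2 := by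
            rw [← pow_mul, mul_comm j 2, pow_mul]; norm_num
          rw [this]
          ring
        rw [e2, e3]
        nlinarith [sq_nonneg (1 / (4 * z * 2 ^ m) - (1 / 2 : ℝ) ^ j / J)]
    -- all the annuli of one child
    have hAs : ∀ i, H c fn (⋃ m ∈ range J, An i m) ≤ (KK d : ℝ≥0∞) ^ (d : ℝ) *
        ENNReal.ofReal (1 / 6 / z ^ 2 + 2 * (1 / 16) ^ j) := by
      intro i
      refine (H_biUnion c fn _ _).trans ((sum_le_sum (hA i)).trans ?_)
      rw [← mul_sum, ← ENNReal.ofReal_sum_of_nonneg]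
      · gcongr
        rw [sum_add_distrib, ← mul_sum, sum_const, card_range, nsmul_eq_mul]
        have h1 := geo4 J
        have h2 : 1 / 8 / z ^ 2 * ∑ m ∈ range J, (1 / 4 : ℝ) ^ m ≤ 1 / 8 / z ^ 2 * (4 / 3) := by gcongr
        have h3 : (J : ℝ) * (2 * (1 / 4) ^ j / J ^ 2) = 2 * (1 / 16) ^ j := by
          have h4 : (J : ℝ) = 4 ^ j := by rw [hJ]; push_cast; rfl
          have h5 : (1 / 16 : ℝ) ^ j = (1 / 4) ^ j / 4 ^ j := by
            rw [← div_pow]; norm_num
          rw [h5, ← h4]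
          field_simp
        rw [h3]
        have h6 : 1 / 8 / z ^ 2 * (4 / 3) = 1 / 6 / z ^ 2 := by ring
        linarith
      · intro m _
        positivity
    -- the core of one child
    have hC : ∀ i, H c fn (Metric.closedBall (ctr i) (1 / (zf j * z))) ≤
        (KK d : ℝ≥0∞) ^ (d : ℝ) * ENNReal.ofReal (6 / 256 / z ^ 2 + 2 * (1 / 16) ^ j) := by
      intro i
      have hval : ∀ x ∈ Metric.closedBall (ctr i) (1 / (zf j * z)), fn x =
          (q + ((1 / 2 : ℝ) ^ (j + 1)) • dir i) +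
            (1 / 2 : ℝ) • Psi k (j + 1) ((zf j * z) • (x - ctr i)) := by
        intro x hx
        rw [mem_closedBall_iff_norm, le_div_iff₀ (by positivity)] at hx
        have h1 : zf j * (z * ‖x - ctr i‖) ≤ 1 := by linarith
        have h0 : 0 ≤ z * ‖x - ctr i‖ := by positivity
        rw [hfn, Psi_child k j _ i (by rw [hptn]; nlinarith), u_core (by rw [← hJ]; exact hJ1) ?_,
          mul_one, hpt, smul_smul, smul_add, smul_smul, ← add_assoc, pow_succ,
          mul_comm ((1 / 2 : ℝ) ^ j)]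
        rw [norm_smul, Real.norm_of_nonneg (by norm_num : (0 : ℝ) ≤ 8), hptn, ← hJ]
        rw [hzfJ] at h1
        linarith
      rw [H_congr c hval]
      refine (ih (j + 1) (zf j * z) (by nlinarith) (ctr i) _ ?_).trans ?_
      · refine (norm_add_le _ _).trans ?_
        rw [norm_smul, dir_norm, Real.norm_of_nonneg (by positivity : (0 : ℝ) ≤ (1 / 2) ^ (j + 1))]
        have e : (1 / 2 : ℝ) ^ (j + 1 + 1) = (1 / 2) ^ (j + 1) * (1 / 2) := pow_succ _ _
        rw [e]
        linarith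
      · refine mul_le_mul' le_rfl (ENNReal.ofReal_le_ofReal ?_)
        have h1 : 6 / (zf j * z) ^ 2 ≤ 6 / 256 / z ^ 2 := by
          rw [div_div]
          refine div_le_div_of_nonneg_left (by norm_num) (by positivity) ?_
          rw [mul_pow]
          have : (256 : ℝ) ≤ zf j ^ 2 := by nlinarith
          nlinarith [sq_nonneg z]
        have h2 : 32 * (1 / 16 : ℝ) ^ (j + 1) = 2 * (1 / 16) ^ j := by rw [pow_succ]; ring
        linarith
    -- the sum
    have hE : ∀ i ∈ (univ : Finset I8), H c fn ((⋃ m ∈ range J, An i m) ∪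
        Metric.closedBall (ctr i) (1 / (zf j * z))) ≤ (KK d : ℝ≥0∞) ^ (d : ℝ) *
        ENNReal.ofReal (1 / 6 / z ^ 2 + 6 / 256 / z ^ 2 + 4 * (1 / 16) ^ j) := by
      intro i _
      refine (H_union c fn _ _).trans ((add_le_add (hAs i) (hC i)).trans (le_of_eq ?_))
      rw [← mul_add, ← ENNReal.ofReal_add (by positivity) (by positivity)]
      congr 2
      ring
    calc H c fn (Metric.closedBall x0 (1 / z))
        ≤ H c fn Flat + H c fn (⋃ i ∈ (univ : Finset I8), ((⋃ m ∈ range J, An i m) ∪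
            Metric.closedBall (ctr i) (1 / (zf j * z)))) :=
          (H_mono c fn hcover).trans (H_union c fn _ _)
      _ ≤ (KK d : ℝ≥0∞) ^ (d : ℝ) * ENNReal.ofReal (4 / z ^ 2) + ∑ i : I8,
            (KK d : ℝ≥0∞) ^ (d : ℝ) *
            ENNReal.ofReal (1 / 6 / z ^ 2 + 6 / 256 / z ^ 2 + 4 * (1 / 16) ^ j) :=
          add_le_add hF ((H_biUnion c fn _ _).trans (sum_le_sum hE))
      _ ≤ _ := by
          have h8 : Fintype.card I8 = 8 := by simp
          have h9 : ((8 : ℕ) : ℝ≥0∞) = ENNReal.ofReal ((8 : ℕ) : ℝ) := by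
            rw [ENNReal.ofReal_natCast]
          rw [sum_const, card_univ, h8, nsmul_eq_mul, mul_left_comm, ← mul_add, h9,
            ← ENNReal.ofReal_mul (by positivity), ← ENNReal.ofReal_add (by positivity) (by positivity)]
          refine mul_le_mul' le_rfl (ENNReal.ofReal_le_ofReal ?_)
          have h1 : 0 ≤ 1 / z ^ 2 := by positivity
          have h2 : 4 / z ^ 2 + ((8 : ℕ) : ℝ) * (1 / 6 / z ^ 2 + 6 / 256 / z ^ 2 + 4 * (1 / 16) ^ j) =
              (4 + 8 / 6 + 48 / 256) * (1 / z ^ 2) + 32 * (1 / 16) ^ j := by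
            push_cast; ring
          rw [h2]
          have h3 : 6 / z ^ 2 = 6 * (1 / z ^ 2) := by ring
          rw [h3]
          nlinarith

end Pool.Agent.W2helper15.GM
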