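import Pool.Agent.W2helper15.GM.Low

/-!
# The shears are bijections of the cube
-/

set_option autoImplicit false

namespace Pool.Agent.W2helper15.GM

open Finset Filter Topology MeasureTheory Measure

open scoped ENNReal NNReal

variable {d : ℕ} (c : Four d)

lemma T_p (g : P → P) (w : Fin d → ℝ) :
    T c g w c.p = w c.p + (g (w c.a, w c.b)).1 * theta (w c.p) := by
  unfold T; rw [if_pos rfl]

lemma T_q (g : P → P) (w : Fin d → ℝ) :
    T c g w c.q = w c.q + (g (w c.a, w c.b)).2 * theta (w c.q) := by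
  unfold T; rw [if_neg c.hpq.symm, if_pos rfl]

lemma T_o (g : P → P) (w : Fin d → ℝ) (i : Fin d) (h1 : i ≠ c.p) (h2 : i ≠ c.q) :
    T c g w i = w i := by
  unfold T; rw [if_neg h1, if_neg h2]

lemma one_inj {s t t' : ℝ} (hs : |s| ≤ 1 / 2) (h : t + s * theta t = t' + s * theta t') :
    t = t' := by
  have h1 := theta_lip t t'
  have h2 : t - t' = s * (theta t' - theta t) := by linarith
  have h3 : |t - t'| ≤ 1 / 2 * |t - t'| := by
    calc |t - t'| = |s| * |theta t' - theta t| := by rw [h2, abs_mul]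
      _ ≤ 1 / 2 * |t - t'| := by
        rw [abs_sub_comm (theta t') (theta t)]
        exact mul_le_mul hs h1 (abs_nonneg _) (by norm_num)
  have h4 : |t - t'| ≤ 0 := by linarith
  have h5 := abs_nonpos_iff.1 h4
  linarith

lemma one_mem {s t : ℝ} (hs : |s| ≤ 1 / 2) (ht : t ∈ Set.Icc (0 : ℝ) 1) :
    t + s * theta t ∈ Set.Icc (0 : ℝ) 1 := by
  have h1 := theta_mem ht
  have h2 := theta_le t
  have h3 : |s * theta t| ≤ theta t := by
    rw [abs_mul, abs_of_nonneg h1.1]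
    nlinarith
  rw [abs_le] at h3
  constructor <;> linarith [h3.1, h3.2]

lemma one_surj {s v : ℝ} (hv : v ∈ Set.Icc (0 : ℝ) 1) :
    ∃ t ∈ Set.Icc (0 : ℝ) 1, t + s * theta t = v := by
  have h0 : theta 0 = 0 := by unfold theta; norm_num
  have h1 : theta 1 = 0 := by unfold theta; norm_num
  have hc : Continuous fun t : ℝ => t + s * theta t := by
    have := theta_cont
    fun_prop
  have h := intermediate_value_Icc (zero_le_one (α := ℝ)) hc.continuousOn
  simp only [h0, h1, mul_zero, add_zero] at h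
  obtain ⟨t, ht, ht'⟩ := h hv
  exact ⟨t, ht, ht'⟩

lemma fst_le {g : P → P} (hg : ∀ x, ‖g x‖ ≤ 1 / 2) (x : P) : |(g x).1| ≤ 1 / 2 := by
  rw [← Real.norm_eq_abs]; exact (norm_fst_le _).trans (hg x)

lemma snd_le {g : P → P} (hg : ∀ x, ‖g x‖ ≤ 1 / 2) (x : P) : |(g x).2| ≤ 1 / 2 := by
  rw [← Real.norm_eq_abs]; exact (norm_snd_le _).trans (hg x)

lemma T_mem {g : P → P} (hg : ∀ x, ‖g x‖ ≤ 1 / 2) {w : Fin d → ℝ}
    (hw : ∀ i, w i ∈ Set.Icc (0 : ℝ) 1) (i : Fin d) : T c g w i ∈ Set.Icc (0 : ℝ) 1 := by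
  by_cases h1 : i = c.p
  · subst h1; rw [T_p]; exact one_mem (fst_le hg _) (hw _)
  · by_cases h2 : i = c.q
    · subst h2; rw [T_q]; exact one_mem (snd_le hg _) (hw _)
    · rw [T_o c g w i h1 h2]; exact hw i

lemma T_inj {g : P → P} (hg : ∀ x, ‖g x‖ ≤ 1 / 2) : Function.Injective (T c g) := by
  intro w w' h
  have ha : w c.a = w' c.a := by
    rw [← T_o c g w c.a c.hap c.haq, ← T_o c g w' c.a c.hap c.haq, h]
  have hb : w c.b = w' c.b := by
    rw [← T_o c g w c.b c.hbp c.hbq, ← T_o c g w' c.b c.hbp c.hbq, h]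
  funext i
  by_cases h1 : i = c.p
  · subst h1
    have h3 := congrFun h c.p
    rw [T_p, T_p, ← ha, ← hb] at h3
    exact one_inj (fst_le hg _) h3
  · by_cases h2 : i = c.q
    · subst h2
      have h3 := congrFun h c.q
      rw [T_q, T_q, ← ha, ← hb] at h3
      exact one_inj (snd_le hg _) h3
    · rw [← T_o c g w i h1 h2, ← T_o c g w' i h1 h2, h]

lemma T_surj (g : P → P) {v : Fin d → ℝ} (hv : ∀ i, v i ∈ Set.Icc (0 : ℝ) 1) :
    ∃ w : Fin d → ℝ, (∀ i, w i ∈ Set.Icc (0 : ℝ) 1) ∧ T c g w = v := by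
  obtain ⟨t, ht, ht'⟩ := one_surj (s := (g (v c.a, v c.b)).1) (hv c.p)
  obtain ⟨r, hr, hr'⟩ := one_surj (s := (g (v c.a, v c.b)).2) (hv c.q)
  obtain ⟨w, hw⟩ : ∃ w : Fin d → ℝ, ∀ i, w i = if i = c.p then t else if i = c.q then r else v i :=
    ⟨_, fun _ => rfl⟩
  have wp : w c.p = t := by rw [hw, if_pos rfl]
  have wq : w c.q = r := by rw [hw, if_neg c.hpq.symm, if_pos rfl]
  have wo : ∀ i, i ≠ c.p → i ≠ c.q → w i = v i := fun i h1 h2 => by rw [hw, if_neg h1, if_neg h2]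
  refine ⟨w, fun i => ?_, funext fun i => ?_⟩
  · by_cases h1 : i = c.p
    · subst h1; rw [wp]; exact ht
    · by_cases h2 : i = c.q
      · subst h2; rw [wq]; exact hr
      · rw [wo i h1 h2]; exact hv i
  · by_cases h1 : i = c.p
    · subst h1
      rw [T_p, wo _ c.hap c.haq, wo _ c.hbp c.hbq, wp, ht']
    · by_cases h2 : i = c.q
      · subst h2
        rw [T_q, wo _ c.hap c.haq, wo _ c.hbp c.hbq, wq, hr']
      · rw [T_o c g w i h1 h2, wo i h1 h2]

lemma T_dist {g g' : P → P} {δ : ℝ} (h : ∀ x, ‖g x - g' x‖ ≤ δ) {w : Fin d → ℝ}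
    (hw : ∀ i, w i ∈ Set.Icc (0 : ℝ) 1) (i : Fin d) : |T c g w i - T c g' w i| ≤ δ := by
  have hδ : 0 ≤ δ := (norm_nonneg _).trans (h 0)
  have key : ∀ s s' t : ℝ, |s - s'| ≤ δ → t ∈ Set.Icc (0 : ℝ) 1 →
      |(t + s * theta t) - (t + s' * theta t)| ≤ δ := by
    intro s s' t hs ht
    have h1 := theta_mem ht
    rw [show (t + s * theta t) - (t + s' * theta t) = (s - s') * theta t by ring, abs_mul,
      abs_of_nonneg h1.1]
    nlinarith [abs_nonneg (s - s')]
  by_cases h1 : i = c.p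
  · subst h1
    rw [T_p, T_p]
    refine key _ _ _ ?_ (hw _)
    rw [← Real.norm_eq_abs, ← Prod.fst_sub]
    exact (norm_fst_le _).trans (h _)
  · by_cases h2 : i = c.q
    · subst h2
      rw [T_q, T_q]
      refine key _ _ _ ?_ (hw _)
      rw [← Real.norm_eq_abs, ← Prod.snd_sub]
      exact (norm_snd_le _).trans (h _)
    · rw [T_o c g w i h1 h2, T_o c g' w i h1 h2, sub_self, abs_zero]
      exact hδ

end Pool.Agent.W2helper15.GM
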