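import Pool.Agent.W2helper15.GM.Energy

/-!
# The graph measure of the limit is infinite
-/

set_option autoImplicit false

namespace Pool.Agent.W2helper15.GM

open Finset Filter Topology MeasureTheory Measure

open scoped ENNReal NNReal

variable {d : ℕ} (c : Four d)

lemma T_cont {g : P → P} (hg : Continuous g) : Continuous (T c g) := by
  refine continuous_pi fun i => ?_
  unfold T
  have hab : Continuous fun w : Fin d → ℝ => g (w c.a, w c.b) :=
    hg.comp ((continuous_apply c.a).prodMk (continuous_apply c.b))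
  split_ifs
  · exact (continuous_apply c.p).add (hab.fst.mul (theta_cont.comp (continuous_apply c.p)))
  · exact (continuous_apply c.q).add (hab.snd.mul (theta_cont.comp (continuous_apply c.q)))
  · exact continuous_apply i

lemma F_cont {g : P → P} (hg : Continuous g) : Continuous (F c g) := by
  unfold F
  refine (PiLp.continuous_toLp 2 _).comp (continuous_pi fun k => ?_)
  rcases k with i | i
  · exact continuous_apply i
  · exact (continuous_apply i).comp (T_cont c hg)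

lemma F_inj (g : P → P) : Function.Injective (F c g) := by
  intro w w' h
  funext i
  have h1 : (F c g w) (Sum.inl i) = (F c g w') (Sum.inl i) := by rw [h]
  exact h1

lemma Cyl_compact {S : Set P} (hS : IsClosed S) : IsCompact (Cyl c S) := by
  have h1 : Cyl c S = Set.Icc (0 : Fin d → ℝ) 1 ∩ {w | (w c.a, w c.b) ∈ S} := by
    ext w
    constructor
    · rintro ⟨h, h'⟩
      exact ⟨⟨fun i => (h i).1, fun i => (h i).2⟩, h'⟩
    · rintro ⟨⟨h, h''⟩, h'⟩
      exact ⟨fun i => ⟨h i, h'' i⟩, h'⟩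
  rw [h1]
  exact isCompact_Icc.inter_right
    (hS.preimage ((continuous_apply c.a).prodMk (continuous_apply c.b)))

lemma H_disj {ι : Type*} {g : P → P} (hg : Continuous g) (s : Finset ι) (S : ι → Set P)
    (hS : ∀ i, IsClosed (S i)) (hd : ∀ i ∈ s, ∀ j ∈ s, i ≠ j → ∀ x, x ∈ S i → x ∉ S j) (S' : Set P)
    (hS' : ∀ i ∈ s, S i ⊆ S') : ∑ i ∈ s, H c g (S i) ≤ H c g S' := by
  unfold H
  rw [← measure_biUnion_finset]
  · refine measure_mono (Set.iUnion₂_subset fun i hi => ?_)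
    exact Set.image_mono fun w hw => ⟨hw.1, hS' i hi hw.2⟩
  · intro i hi j hj hij
    refine Set.disjoint_left.2 ?_
    rintro _ ⟨w, hw, rfl⟩ ⟨w', hw', h⟩
    have := F_inj c g h
    subst this
    exact hd i hi j hj hij _ hw.2 hw'.2
  · intro i _
    exact ((Cyl_compact c (hS i)).image (F_cont c hg)).isClosed.measurableSet

lemma lo (m j : ℕ) (z : ℝ) (hz : 4 ≤ z) (x0 q : P)
    (hbox : ∀ x : P, ‖x - x0‖ ≤ 1 / z → x.1 ∈ Set.Icc (0 : ℝ) 1 ∧ x.2 ∈ Set.Icc (0 : ℝ) 1) :
    ENNReal.ofReal ((1 / 4) ^ (j + 1) * 2 ^ m) ≤ ((8 : ℝ≥0) : ℝ≥0∞) ^ (d : ℝ) *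
      H c (fun x => q + (1 / 2 : ℝ) • PsiL j (z • (x - x0))) (Metric.closedBall x0 (1 / z)) := by
  induction m generalizing j z x0 q with
  | zero =>
    have hz0 : 0 < z := by linarith
    have h1 : ((1 / 4 : ℝ) ^ (j + 1) * 2 ^ 0) = ((1 / 2) ^ (j + 1)) ^ 2 := by
      rw [pow_zero, mul_one, ← pow_mul, mul_comm (j + 1) 2, pow_mul]; norm_num
    rw [h1]
    refine lower c _ _ q _ (by positivity) ?_ ?_
    · intro x hx
      exact hbox x (by rw [← dist_eq_norm]; exact hx)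
    · intro t ht
      obtain ⟨y, hy, hy'⟩ := surj j ((2 : ℝ) • (t - q)) (by
        rw [norm_smul, Real.norm_of_nonneg (by norm_num : (0 : ℝ) ≤ 2)]
        rw [pow_succ] at ht
        linarith)
      refine ⟨x0 + z⁻¹ • y, ?_, ?_⟩
      · rw [mem_closedBall_iff_norm, add_sub_cancel_left, norm_smul, norm_inv,
          Real.norm_of_nonneg hz0.le, one_div]
        exact mul_le_of_le_one_right (by positivity) hy
      · show q + (1 / 2 : ℝ) • PsiL j (z • (x0 + z⁻¹ • y - x0)) = t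
        rw [add_sub_cancel_left, smul_smul, mul_inv_cancel₀ hz0.ne', one_smul, hy', smul_smul]
        norm_num
  | succ m ih =>
    have hz0 : 0 < z := by linarith
    have hzf := zf_pos j
    have hzf16 := zf_ge j
    have hzfJ : zf j = 8 * 2 ^ (4 ^ j) := rfl
    have hJ1 : 1 ≤ 4 ^ j := Nat.one_le_pow _ _ (by norm_num)
    obtain ⟨fn, hfn⟩ : ∃ fn : P → P, ∀ x, fn x = q + (1 / 2 : ℝ) • PsiL j (z • (x - x0)) :=
      ⟨_, fun _ => rfl⟩
    have hfn' : (fun x => q + (1 / 2 : ℝ) • PsiL j (z • (x - x0))) = fn :=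
      funext fun x => (hfn x).symm
    rw [hfn']
    have hfc : Continuous fn := by
      rw [← hfn']
      have hcc : Continuous fun x : P => PsiL j (z • (x - x0)) := (PsiL_cont j).comp (by fun_prop)
      fun_prop
    obtain ⟨ctr, hctr⟩ : ∃ ctr : I8 → P, ∀ i, ctr i = x0 + z⁻¹ • pos i := ⟨_, fun _ => rfl⟩
    have hpt : ∀ x i, z • (x - x0) - pos i = z • (x - ctr i) := fun x i => by
      rw [hctr]; exact child_pt hz0 x x0 i
    have hptn : ∀ x i, ‖z • (x - x0) - pos i‖ = z * ‖x - ctr i‖ := fun x i => by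
      rw [hpt, norm_smul, Real.norm_of_nonneg hz0.le]
    have hin : ∀ i x, x ∈ Metric.closedBall (ctr i) (1 / (zf j * z)) →
        zf j * ‖z • (x - x0) - pos i‖ ≤ 1 := by
      intro i x hx
      rw [mem_closedBall_iff_norm, le_div_iff₀ (by positivity)] at hx
      rw [hptn]
      linarith
    have hin' : ∀ i x, x ∈ Metric.closedBall (ctr i) (1 / (zf j * z)) →
        ‖z • (x - x0) - pos i‖ ≤ 1 / 16 := by
      intro i x hx
      have := hin i x hx
      nlinarith [norm_nonneg (z • (x - x0) - pos i)]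
    have hsub : ∀ i, Metric.closedBall (ctr i) (1 / (zf j * z)) ⊆ Metric.closedBall x0 (1 / z) := by
      intro i x hx
      have h1 := hin' i x hx
      rw [mem_closedBall_iff_norm, le_div_iff₀ hz0]
      have h2 : ‖z • (x - x0)‖ ≤ ‖z • (x - x0) - pos i‖ + ‖pos i‖ := by
        have := norm_add_le (z • (x - x0) - pos i) (pos i)
        rwa [sub_add_cancel] at this
      rw [norm_smul, Real.norm_of_nonneg hz0.le] at h2
      have h3 := pos_norm i
      linarith
    have hC : ∀ i ∈ (univ : Finset I8), ENNReal.ofReal ((1 / 4) ^ (j + 1 + 1) * 2 ^ m) ≤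
        ((8 : ℝ≥0) : ℝ≥0∞) ^ (d : ℝ) *
          H c fn (Metric.closedBall (ctr i) (1 / (zf j * z))) := by
      intro i _
      have hval : ∀ x ∈ Metric.closedBall (ctr i) (1 / (zf j * z)), fn x =
          (q + ((1 / 2 : ℝ) ^ (j + 1)) • dir i) +
            (1 / 2 : ℝ) • PsiL (j + 1) ((zf j * z) • (x - ctr i)) := by
        intro x hx
        have h1 := hin i x hx
        have h2 := hin' i x hx
        rw [hfn, PsiL_child j _ i (by linarith), u_core hJ1 ?_,
          mul_one, hpt, smul_smul, smul_add, smul_smul, ← add_assoc, pow_succ,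
          mul_comm ((1 / 2 : ℝ) ^ j)]
        rw [norm_smul, Real.norm_of_nonneg (by norm_num : (0 : ℝ) ≤ 8)]
        rw [hzfJ] at h1
        linarith
      rw [H_congr c hval]
      refine ih (j + 1) (zf j * z) (by nlinarith) (ctr i) _ fun x hx => hbox x ?_
      have := hsub i (mem_closedBall_iff_norm.2 hx)
      exact mem_closedBall_iff_norm.1 this
    have hsum := H_disj c hfc (univ : Finset I8) (fun i => Metric.closedBall (ctr i) (1 / (zf j * z)))
      (fun i => Metric.isClosed_closedBall) (by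
        intro i _ i' _ hne x hx hx'
        have h1 := hin' i x hx
        have h2 := hin' i' x hx'
        have h3 := pos_sep hne
        have h4 : ‖pos i - pos i'‖ ≤ ‖z • (x - x0) - pos i'‖ + ‖z • (x - x0) - pos i‖ := by
          have : pos i - pos i' = (z • (x - x0) - pos i') - (z • (x - x0) - pos i) := by abel
          rw [this]
          exact norm_sub_le _ _
        linarith) (Metric.closedBall x0 (1 / z)) (fun i _ => hsub i)
    refine le_trans ?_ (mul_le_mul' le_rfl hsum)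
    rw [mul_sum]
    refine le_trans (le_of_eq ?_) (sum_le_sum hC)
    have h8 : Fintype.card I8 = 8 := by simp
    have h9 : ((8 : ℕ) : ℝ≥0∞) = ENNReal.ofReal ((8 : ℕ) : ℝ) := by
      rw [ENNReal.ofReal_natCast]
    rw [sum_const, card_univ, h8, nsmul_eq_mul, h9, ← ENNReal.ofReal_mul (by positivity)]
    congr 1
    push_cast
    ring

/-- the approximating maps -/
noncomputable def gk (k : ℕ) (x : P) : P :=
  0 + (1 / 2 : ℝ) • Psi k 0 ((4 : ℝ) • (x - (1 / 2, 1 / 2)))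

/-- the limit -/
noncomputable def gL (x : P) : P :=
  0 + (1 / 2 : ℝ) • PsiL 0 ((4 : ℝ) • (x - (1 / 2, 1 / 2)))

lemma gk_cont (k : ℕ) : Continuous (gk k) := by
  unfold gk
  have hcc : Continuous fun x : P => Psi k 0 ((4 : ℝ) • (x - (1 / 2, 1 / 2))) :=
    (Psi_cont k 0).comp (by fun_prop)
  fun_prop

lemma gL_cont : Continuous gL := by
  unfold gL
  have hcc : Continuous fun x : P => PsiL 0 ((4 : ℝ) • (x - (1 / 2, 1 / 2))) :=
    (PsiL_cont 0).comp (by fun_prop)
  fun_prop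

lemma gk_norm (k : ℕ) (x : P) : ‖gk k x‖ ≤ 1 / 2 := by
  unfold gk
  rw [zero_add, norm_smul, Real.norm_of_nonneg (by norm_num : (0 : ℝ) ≤ 1 / 2)]
  have := Psi_norm k 0 ((4 : ℝ) • (x - (1 / 2, 1 / 2)))
  rw [pow_zero] at this
  linarith

lemma gL_norm (x : P) : ‖gL x‖ ≤ 1 / 2 := by
  unfold gL
  rw [zero_add, norm_smul, Real.norm_of_nonneg (by norm_num : (0 : ℝ) ≤ 1 / 2)]
  have := PsiL_norm 0 ((4 : ℝ) • (x - (1 / 2, 1 / 2)))
  rw [pow_zero] at this
  linarith

lemma gk_gL (k : ℕ) (x : P) : ‖gk k x - gL x‖ ≤ (1 / 2) ^ k := by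
  unfold gk gL
  rw [zero_add, zero_add, ← smul_sub, norm_smul, Real.norm_of_nonneg (by norm_num : (0 : ℝ) ≤ 1 / 2)]
  have := Psi_PsiL k 0 ((4 : ℝ) • (x - (1 / 2, 1 / 2)))
  rw [pow_zero, one_mul] at this
  linarith

/-- the graph measure of the limit is infinite -/
lemma H_gL : H c gL Set.univ = ∞ := by
  have h1 : ∀ m : ℕ, ENNReal.ofReal ((1 / 4) ^ (0 + 1) * 2 ^ m) ≤
      ((8 : ℝ≥0) : ℝ≥0∞) ^ (d : ℝ) * H c gL Set.univ := by
    intro m
    refine (lo c m 0 4 le_rfl (1 / 2, 1 / 2) 0 ?_).trans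
      (mul_le_mul' le_rfl (H_mono c _ (Set.subset_univ _)))
    intro x hx
    rw [Prod.norm_def, Real.norm_eq_abs, Real.norm_eq_abs] at hx
    have h2 := (le_max_left _ _).trans hx
    have h3 := (le_max_right _ _).trans hx
    simp only [Prod.fst_sub, Prod.snd_sub] at h2 h3
    rw [abs_le] at h2 h3
    constructor <;> constructor <;> linarith [h2.1, h2.2, h3.1, h3.2]
  by_contra hne
  have h2 : ((8 : ℝ≥0) : ℝ≥0∞) ^ (d : ℝ) * H c gL Set.univ ≠ ∞ :=
    ENNReal.mul_ne_top (ENNReal.rpow_ne_top_of_nonneg (Nat.cast_nonneg d) ENNReal.coe_ne_top) hne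
  have h3 : ∀ m : ℕ, (1 / 4 : ℝ) * 2 ^ m ≤
      (((8 : ℝ≥0) : ℝ≥0∞) ^ (d : ℝ) * H c gL Set.univ).toReal := by
    intro m
    have := ENNReal.toReal_mono h2 (h1 m)
    rw [ENNReal.toReal_ofReal (by positivity)] at this
    simpa using this
  have h4 : Tendsto (fun m : ℕ => (1 / 4 : ℝ) * 2 ^ m) atTop atTop :=
    (tendsto_pow_atTop_atTop_of_one_lt (by norm_num : (1 : ℝ) < 2)).const_mul_atTop (by norm_num)
  obtain ⟨m, hm⟩ := (h4.eventually_gt_atTop
    (((8 : ℝ≥0) : ℝ≥0∞) ^ (d : ℝ) * H c gL Set.univ).toReal).exists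
  exact absurd (h3 m) (not_le.2 hm)

/-- the graph measures of the approximating maps are bounded -/
lemma H_gk (k : ℕ) : H c (gk k) Set.univ ≤ (KK d : ℝ≥0∞) ^ (d : ℝ) * ENNReal.ofReal 34 := by
  have h1 := up c k 0 4 le_rfl (1 / 2, 1 / 2) 0 (by norm_num)
  have h2 : H c (gk k) {x | ‖x - (1 / 2, 1 / 2)‖ ≤ 1 / 2 ∧ 1 / 4 ≤ ‖x - (1 / 2, 1 / 2)‖} ≤
      (KK d : ℝ≥0∞) ^ (d : ℝ) * ENNReal.ofReal ((2 * (1 + 0) * (1 / 2)) ^ 2) := by
    have hv : ∀ x ∈ {x : P | ‖x - (1 / 2, 1 / 2)‖ ≤ 1 / 2 ∧ 1 / 4 ≤ ‖x - (1 / 2, 1 / 2)‖},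
        gk k x = 0 := by
      intro x hx
      unfold gk
      rw [Psi_out, smul_zero, zero_add]
      rw [norm_smul, Real.norm_of_nonneg (by norm_num : (0 : ℝ) ≤ 4)]
      linarith [hx.2]
    refine upper c _ _ (1 / 2, 1 / 2) (1 / 2) 0 (by norm_num) le_rfl (fun x hx => hx.1) ?_
      fun x _ => gk_norm k x
    intro x hx y hy
    rw [hv x hx, hv y hy]
    simp
  have h3 : H c (gk k) Set.univ ≤ H c (gk k) (Metric.closedBall (1 / 2, 1 / 2) (1 / 4) ∪
      {x | ‖x - (1 / 2, 1 / 2)‖ ≤ 1 / 2 ∧ 1 / 4 ≤ ‖x - (1 / 2, 1 / 2)‖}) := by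
    refine measure_mono (Set.image_mono fun w hw => ⟨hw.1, ?_⟩)
    by_cases h : ‖((w c.a, w c.b) : P) - (1 / 2, 1 / 2)‖ ≤ 1 / 4
    · exact Or.inl (mem_closedBall_iff_norm.2 h)
    · refine Or.inr ⟨?_, (not_le.1 h).le⟩
      rw [Prod.norm_def, Real.norm_eq_abs, Real.norm_eq_abs]
      simp only [Prod.fst_sub, Prod.snd_sub]
      have ha := hw.1 c.a
      have hb := hw.1 c.b
      refine max_le ?_ ?_ <;> rw [abs_le] <;> constructor <;> linarith [ha.1, ha.2, hb.1, hb.2]
  refine h3.trans ((H_union c _ _ _).trans ((add_le_add h1 h2).trans ?_))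
  rw [← mul_add, ← ENNReal.ofReal_add (by positivity) (by positivity)]
  refine mul_le_mul' le_rfl (ENNReal.ofReal_le_ofReal ?_)
  norm_num

end Pool.Agent.W2helper15.GM
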