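import Pool.Agent.W2helper15.GM.Psi

/-!
# The Hausdorff measure of the graphs of the shears `T g`
-/

set_option autoImplicit false

namespace Pool.Agent.W2helper15.GM

open Finset Filter Topology MeasureTheory Measure

open scoped ENNReal NNReal

/-- the profile of the shears -/
noncomputable def theta (t : ℝ) : ℝ := min (min t (1 - t)) (1 / 4)

lemma theta_lip (s t : ℝ) : |theta s - theta t| ≤ |s - t| := by
  unfold theta
  have h1 := abs_min_sub_min_le_max (min s (1 - s)) (1 / 4) (min t (1 - t)) (1 / 4)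
  have h2 := abs_min_sub_min_le_max s (1 - s) t (1 - t)
  have h3 : |(1 - s) - (1 - t)| = |s - t| := by
    rw [show (1 - s) - (1 - t) = -(s - t) by ring, abs_neg]
  rw [h3, max_self] at h2
  refine h1.trans ?_
  simp only [sub_self, abs_zero]
  exact max_le h2 (abs_nonneg _)

lemma theta_cont : Continuous theta := by
  unfold theta
  fun_prop

lemma theta_mem {t : ℝ} (h : t ∈ Set.Icc (0 : ℝ) 1) : 0 ≤ theta t ∧ theta t ≤ 1 / 4 :=
  ⟨le_min (le_min h.1 (by linarith [h.2])) (by norm_num), min_le_right _ _⟩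

lemma theta_le (t : ℝ) : theta t ≤ t ∧ theta t ≤ 1 - t :=
  ⟨(min_le_left _ _).trans (min_le_left _ _), (min_le_left _ _).trans (min_le_right _ _)⟩

lemma theta_mid {t : ℝ} (h : t ∈ Set.Icc (1 / 4 : ℝ) (3 / 4)) : theta t = 1 / 4 :=
  min_eq_right (le_min h.1 (by linarith [h.2]))

variable {d : ℕ}

/-- the data: four different coordinates -/
structure Four (d : ℕ) where
  /-- the first coordinate of `x` -/
  a : Fin d
  /-- the second coordinate of `x` -/
  b : Fin d
  /-- the first coordinate of `y` -/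
  p : Fin d
  /-- the second coordinate of `y` -/
  q : Fin d
  hab : a ≠ b
  hap : a ≠ p
  haq : a ≠ q
  hbp : b ≠ p
  hbq : b ≠ q
  hpq : p ≠ q

variable (c : Four d)

/-- the shear -/
noncomputable def T (g : P → P) (w : Fin d → ℝ) : Fin d → ℝ := fun i =>
  if i = c.p then w c.p + (g (w c.a, w c.b)).1 * theta (w c.p)
  else if i = c.q then w c.q + (g (w c.a, w c.b)).2 * theta (w c.q) else w i

/-- the point of the graph over `w` -/
noncomputable def F (g : P → P) (w : Fin d → ℝ) : EuclideanSpace ℝ (Fin d ⊕ Fin d) :=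
  WithLp.toLp 2 (Sum.elim w (T c g w))

/-- the part of the cube over `S` -/
def Cyl (S : Set P) : Set (Fin d → ℝ) := {w | (∀ i, w i ∈ Set.Icc (0 : ℝ) 1) ∧ (w c.a, w c.b) ∈ S}

/-- the graph measure over `S` -/
noncomputable def H (g : P → P) (S : Set P) : ℝ≥0∞ := μH[(d : ℝ)] (F c g '' Cyl c S)

lemma H_mono (g : P → P) {S S' : Set P} (h : S ⊆ S') : H c g S ≤ H c g S' :=
  measure_mono (Set.image_mono fun _ hw => ⟨hw.1, h hw.2⟩)

lemma H_union (g : P → P) (S S' : Set P) : H c g (S ∪ S') ≤ H c g S + H c g S' := by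
  unfold H
  refine le_trans (measure_mono ?_) (measure_union_le _ _)
  rw [← Set.image_union]
  refine Set.image_mono fun w hw => ?_
  rcases hw.2 with h | h
  · exact Or.inl ⟨hw.1, h⟩
  · exact Or.inr ⟨hw.1, h⟩

lemma H_biUnion {ι : Type*} (g : P → P) (s : Finset ι) (S : ι → Set P) :
    H c g (⋃ i ∈ s, S i) ≤ ∑ i ∈ s, H c g (S i) := by
  unfold H
  refine le_trans (measure_mono ?_) (measure_biUnion_finset_le s fun i => F c g '' Cyl c (S i))
  rintro _ ⟨w, hw, rfl⟩
  obtain ⟨i, hi, hi'⟩ := Set.mem_iUnion₂.1 hw.2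
  exact Set.mem_iUnion₂.2 ⟨i, hi, w, ⟨hw.1, hi'⟩, rfl⟩

lemma H_congr {g g' : P → P} {S : Set P} (h : ∀ x ∈ S, g x = g' x) : H c g S = H c g' S := by
  unfold H
  congr 1
  refine Set.image_congr fun w hw => ?_
  have := h _ hw.2
  unfold F T
  rw [this]

/-- the Lipschitz constant of the upper bound -/
noncomputable def KK (d : ℕ) : ℝ≥0 := ((Fintype.card (Fin d ⊕ Fin d) : ℝ≥0) ^ (1 / (2 : ℝ≥0∞)).toReal) * 2

lemma coord_le (w : Fin d → ℝ) (i : Fin d) : |w i| ≤ ‖w‖ := by
  rw [← Real.norm_eq_abs]; exact norm_le_pi_norm w i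

/-- the volume of the box of the upper bound -/
lemma vol_box (lo hi lo' hi' : ℝ) (l h : ℝ) (L' : ℝ) (hL : h - l = L') :
    volume (Set.Icc (fun i : Fin d => if i = c.a then lo else if i = c.b then lo' else
        if i = c.p then l else if i = c.q then l else 0)
      (fun i : Fin d => if i = c.a then hi else if i = c.b then hi' else
        if i = c.p then h else if i = c.q then h else 1)) =
    ENNReal.ofReal (hi - lo) * ENNReal.ofReal (hi' - lo') * (ENNReal.ofReal L' * ENNReal.ofReal L') := by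
  rw [Real.volume_Icc_pi]
  rw [← Finset.mul_prod_erase univ _ (mem_univ c.a),
    ← Finset.mul_prod_erase (univ.erase c.a) _ (mem_erase.2 ⟨c.hab.symm, mem_univ c.b⟩),
    ← Finset.mul_prod_erase ((univ.erase c.a).erase c.b) _
      (mem_erase.2 ⟨c.hbp.symm, mem_erase.2 ⟨c.hap.symm, mem_univ c.p⟩⟩),
    ← Finset.mul_prod_erase (((univ.erase c.a).erase c.b).erase c.p) _
      (mem_erase.2 ⟨c.hpq.symm, mem_erase.2 ⟨c.hbq.symm, mem_erase.2 ⟨c.haq.symm, mem_univ c.q⟩⟩⟩)]
  rw [Finset.prod_eq_one]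
  · simp only [if_true, c.hab.symm, c.hap.symm, c.haq.symm, c.hbp.symm, c.hbq.symm, c.hpq.symm,
      if_false, hL]
    ring
  · intro i hi
    simp only [mem_erase, mem_univ, and_true] at hi
    obtain ⟨h1, h2, h3, h4⟩ := hi
    simp [h1, h2, h3, h4]

lemma upper (g : P → P) (S : Set P) (x0 : P) (r L : ℝ) (hr : 0 ≤ r) (hL : 0 ≤ L)
    (hS : ∀ x ∈ S, ‖x - x0‖ ≤ r) (hg : ∀ x ∈ S, ∀ y ∈ S, ‖g x - g y‖ ≤ L * ‖x - y‖)
    (hb : ∀ x ∈ S, ‖g x‖ ≤ 1 / 2) :
    H c g S ≤ (KK d : ℝ≥0∞) ^ (d : ℝ) * ENNReal.ofReal ((2 * (1 + L) * r) ^ 2) := by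
  classical
  have hs : 0 < 1 + L := by linarith
  -- the rescaling
  obtain ⟨R, hRd⟩ : ∃ R : (Fin d → ℝ) → (Fin d → ℝ), ∀ w i, R w i =
    if i = c.a then w c.a / (1 + L) else if i = c.b then w c.b / (1 + L) else w i :=
    ⟨_, fun _ _ => rfl⟩
  have Ra : ∀ w, R w c.a = w c.a / (1 + L) := fun w => by rw [hRd, if_pos rfl]
  have Rb : ∀ w, R w c.b = w c.b / (1 + L) := fun w => by rw [hRd, if_neg c.hab.symm, if_pos rfl]
  have Ro : ∀ w i, i ≠ c.a → i ≠ c.b → R w i = w i := fun w i h1 h2 => by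
    rw [hRd, if_neg h1, if_neg h2]
  let A : Set (Fin d → ℝ) := {w | R w ∈ Cyl c S}
  have himg : F c g '' Cyl c S ⊆ (fun w => F c g (R w)) '' A := by
    rintro _ ⟨w, hw, rfl⟩
    have h1 : R (fun i => if i = c.a then w c.a * (1 + L) else if i = c.b then w c.b * (1 + L)
        else w i) = w := by
      funext i
      by_cases h : i = c.a
      · subst h; rw [Ra]; simp [hs.ne']
      · by_cases h' : i = c.b
        · subst h'; rw [Rb]; simp [hs.ne', c.hab.symm]
        · rw [Ro _ _ h h']; simp [h, h']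
    refine ⟨_, ?_, congrArg (F c g) h1⟩
    show R _ ∈ Cyl c S
    rw [h1]; exact hw
  -- the Lipschitz bound
  have hR : ∀ w w' i, |R w i - R w' i| ≤ ‖w - w'‖ := by
    intro w w' i
    have h1 : ∀ t : ℝ, |t / (1 + L)| ≤ |t| := fun t => by
      rw [abs_div, abs_of_pos hs]
      exact div_le_self (abs_nonneg _) (by linarith)
    by_cases h : i = c.a
    · subst h; rw [Ra, Ra, ← sub_div]
      exact (h1 _).trans (coord_le (w - w') _)
    · by_cases h' : i = c.b
      · subst h'; rw [Rb, Rb, ← sub_div]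
        exact (h1 _).trans (coord_le (w - w') _)
      · rw [Ro _ _ h h', Ro _ _ h h']
        exact coord_le (w - w') i
  have hgx : ∀ w ∈ A, ∀ w' ∈ A, ‖g (R w c.a, R w c.b) - g (R w' c.a, R w' c.b)‖ ≤ ‖w - w'‖ := by
    intro w hw w' hw'
    refine (hg _ hw.2 _ hw'.2).trans ?_
    have h1 : ‖((R w c.a, R w c.b) : P) - (R w' c.a, R w' c.b)‖ ≤ ‖w - w'‖ / (1 + L) := by
      rw [Prod.norm_def, Real.norm_eq_abs, Real.norm_eq_abs]
      simp only [Prod.fst_sub, Prod.snd_sub]
      rw [Ra, Ra, Rb, Rb, ← sub_div, ← sub_div, abs_div, abs_div, abs_of_pos hs]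
      refine max_le ?_ ?_ <;>
      exact div_le_div_of_nonneg_right (coord_le (w - w') _) hs.le
    calc L * _ ≤ L * (‖w - w'‖ / (1 + L)) := mul_le_mul_of_nonneg_left h1 hL
      _ ≤ ‖w - w'‖ := by
        rw [mul_div_assoc', div_le_iff₀ hs]
        nlinarith [norm_nonneg (w - w')]
  have hT : ∀ w ∈ A, ∀ w' ∈ A, ∀ t t' : ℝ, t ∈ Set.Icc (0 : ℝ) 1 → t' ∈ Set.Icc (0 : ℝ) 1 →
      |t - t'| ≤ ‖w - w'‖ → ∀ s s' : ℝ, |s - s'| ≤ ‖w - w'‖ → |s'| ≤ 1 / 2 →
      |(t + s * theta t) - (t' + s' * theta t')| ≤ 2 * ‖w - w'‖ := by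
    intro w _ w' _ t t' ht ht' htt s s' hss hs'
    have h1 := theta_mem ht
    have h2 := theta_lip t t'
    have h3 : (t + s * theta t) - (t' + s' * theta t') =
        (t - t') + (s - s') * theta t + s' * (theta t - theta t') := by ring
    rw [h3]
    refine (abs_add_three _ _ _).trans ?_
    rw [abs_mul, abs_mul, abs_of_nonneg h1.1]
    have h4 : |s - s'| * theta t ≤ ‖w - w'‖ * (1 / 4) :=
      mul_le_mul hss h1.2 h1.1 (norm_nonneg _)
    have h5 : |s'| * |theta t - theta t'| ≤ 1 / 2 * ‖w - w'‖ :=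
      mul_le_mul hs' (h2.trans htt) (abs_nonneg _) (by norm_num)
    have := norm_nonneg (w - w')
    linarith
  have hlip : LipschitzOnWith (KK d) (fun w => F c g (R w)) A := by
    have h1 : LipschitzOnWith 2 (fun w => (Sum.elim (R w) (T c g (R w)) : Fin d ⊕ Fin d → ℝ)) A := by
      refine LipschitzOnWith.of_dist_le_mul fun w hw w' hw' => ?_
      rw [dist_eq_norm, dist_eq_norm]
      have hn := norm_nonneg (w - w')
      refine (pi_norm_le_iff_of_nonneg (by positivity)).2 fun k => ?_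
      rw [Real.norm_eq_abs]
      show |_ - _| ≤ (2 : ℝ) * _
      rcases k with i | i
      · simp only [Sum.elim_inl]
        exact (hR w w' i).trans (by linarith)
      · simp only [Sum.elim_inr]
        have hgn := hgx w hw w' hw'
        rw [Prod.norm_def, Real.norm_eq_abs, Real.norm_eq_abs] at hgn
        have hb' := hb _ hw'.2
        rw [Prod.norm_def, Real.norm_eq_abs, Real.norm_eq_abs] at hb'
        unfold T
        by_cases h : i = c.p
        · rw [if_pos h, if_pos h]
          exact hT w hw w' hw' _ _ (hw.1 _) (hw'.1 _) (hR w w' _) _ _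
            ((le_max_left _ _).trans hgn) ((le_max_left _ _).trans hb')
        · rw [if_neg h, if_neg h]
          by_cases h' : i = c.q
          · rw [if_pos h', if_pos h']
            exact hT w hw w' hw' _ _ (hw.1 _) (hw'.1 _) (hR w w' _) _ _
              ((le_max_right _ _).trans hgn) ((le_max_right _ _).trans hb')
          · rw [if_neg h', if_neg h']
            exact (hR w w' i).trans (by linarith)
    exact (PiLp.lipschitzWith_toLp 2 (fun _ : Fin d ⊕ Fin d => ℝ)).comp_lipschitzOnWith h1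
  -- the volume
  have hA : A ⊆ Set.Icc (fun i : Fin d => if i = c.a then (1 + L) * (x0.1 - r) else
        if i = c.b then (1 + L) * (x0.2 - r) else if i = c.p then 0 else if i = c.q then 0 else 0)
      (fun i : Fin d => if i = c.a then (1 + L) * (x0.1 + r) else
        if i = c.b then (1 + L) * (x0.2 + r) else if i = c.p then 1 else if i = c.q then 1 else 1) := by
    intro w hw
    have h1 := hS _ hw.2
    rw [Prod.norm_def, Real.norm_eq_abs, Real.norm_eq_abs] at h1
    have h2 := (le_max_left _ _).trans h1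
    have h3 := (le_max_right _ _).trans h1
    simp only [Prod.fst_sub, Prod.snd_sub, Ra, Rb] at h2 h3
    rw [abs_le] at h2 h3
    have e1 : w c.a / (1 + L) * (1 + L) = w c.a := div_mul_cancel₀ _ hs.ne'
    have e2 : w c.b / (1 + L) * (1 + L) = w c.b := div_mul_cancel₀ _ hs.ne'
    rw [Set.mem_Icc, Pi.le_def, Pi.le_def]
    constructor
    · intro i
      show (if _ then _ else _) ≤ w i
      by_cases h : i = c.a
      · rw [if_pos h, h]; nlinarith [h2.1]
      · rw [if_neg h]
        by_cases h' : i = c.b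
        · rw [if_pos h', h']; nlinarith [h3.1]
        · rw [if_neg h']
          have := hw.1 i
          rw [Ro _ _ h h'] at this
          split_ifs <;> exact this.1
    · intro i
      show w i ≤ (if _ then _ else _)
      by_cases h : i = c.a
      · rw [if_pos h, h]; nlinarith [h2.2]
      · rw [if_neg h]
        by_cases h' : i = c.b
        · rw [if_pos h', h']; nlinarith [h3.2]
        · rw [if_neg h']
          have := hw.1 i
          rw [Ro _ _ h h'] at this
          split_ifs <;> exact this.2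
  have hvol : μH[(d : ℝ)] A ≤ ENNReal.ofReal ((2 * (1 + L) * r) ^ 2) := by
    have h0 : (μH[(d : ℝ)] : Measure (Fin d → ℝ)) = volume := by
      have := hausdorffMeasure_pi_real (ι := Fin d)
      rwa [Fintype.card_fin] at this
    rw [h0]
    refine (measure_mono hA).trans ?_
    rw [vol_box c _ _ _ _ 0 1 1 (by norm_num)]
    rw [ENNReal.ofReal_one, mul_one, mul_one, ← ENNReal.ofReal_mul]
    · refine ENNReal.ofReal_le_ofReal (le_of_eq ?_)
      ring
    · nlinarith
  calc H c g S ≤ μH[(d : ℝ)] ((fun w => F c g (R w)) '' A) := measure_mono himg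
    _ ≤ (KK d : ℝ≥0∞) ^ (d : ℝ) * μH[(d : ℝ)] A :=
        hlip.hausdorffMeasure_image_le (Nat.cast_nonneg d)
    _ ≤ _ := by gcongr

lemma lower (g : P → P) (S : Set P) (z0 : P) (ρ : ℝ) (hρ : 0 ≤ ρ)
    (hS : ∀ x ∈ S, x.1 ∈ Set.Icc (0 : ℝ) 1 ∧ x.2 ∈ Set.Icc (0 : ℝ) 1)
    (hsurj : ∀ t : P, ‖t - z0‖ ≤ ρ → ∃ x ∈ S, g x = t) :
    ENNReal.ofReal (ρ ^ 2) ≤ ((8 : ℝ≥0) : ℝ≥0∞) ^ (d : ℝ) * H c g S := by
  classical
  let Λ : EuclideanSpace ℝ (Fin d ⊕ Fin d) → (Fin d → ℝ) := fun v i =>
    if i = c.a then 4 * (v (Sum.inr c.p) - v (Sum.inl c.p)) else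
    if i = c.b then 4 * (v (Sum.inr c.q) - v (Sum.inl c.q)) else v (Sum.inl i)
  have hco : ∀ (v v' : EuclideanSpace ℝ (Fin d ⊕ Fin d)) k, |v k - v' k| ≤ dist v v' := by
    intro v v' k
    rw [dist_eq_norm, ← Real.norm_eq_abs]
    exact PiLp.norm_apply_le (v - v') k
  have hΛ : LipschitzWith 8 Λ := by
    refine LipschitzWith.of_dist_le_mul fun v v' => ?_
    rw [dist_eq_norm (Λ v)]
    have hn : 0 ≤ dist v v' := dist_nonneg
    refine (pi_norm_le_iff_of_nonneg (by positivity)).2 fun i => ?_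
    rw [Real.norm_eq_abs]
    show |_ - _| ≤ (8 : ℝ) * _
    have key : ∀ k k', |4 * (v k - v k') - 4 * (v' k - v' k')| ≤ 8 * dist v v' := by
      intro k k'
      have h1 := hco v v' k
      have h2 := hco v v' k'
      rw [abs_le] at h1 h2 ⊢
      constructor <;> linarith
    simp only [Λ]
    split_ifs
    · exact key _ _
    · exact key _ _
    · exact (hco v v' _).trans (by linarith)
  have hsub : Set.Icc (fun i : Fin d => if i = c.a then z0.1 - ρ else if i = c.b then z0.2 - ρ else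
        if i = c.p then 1 / 4 else if i = c.q then 1 / 4 else 0)
      (fun i : Fin d => if i = c.a then z0.1 + ρ else if i = c.b then z0.2 + ρ else
        if i = c.p then 3 / 4 else if i = c.q then 3 / 4 else 1) ⊆
      Λ '' (F c g '' Cyl c S) := by
    intro v hv
    rw [Set.mem_Icc, Pi.le_def, Pi.le_def] at hv
    obtain ⟨h1, h2⟩ := hv
    have ha1 := h1 c.a
    have ha2 := h2 c.a
    have hb1 := h1 c.b
    have hb2 := h2 c.b
    have hp1 := h1 c.p
    have hp2 := h2 c.p
    have hq1 := h1 c.q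
    have hq2 := h2 c.q
    simp only [if_true, c.hab.symm, c.hap.symm, c.haq.symm, c.hbp.symm, c.hbq.symm, c.hpq.symm,
      if_false] at ha1 ha2 hb1 hb2 hp1 hp2 hq1 hq2
    obtain ⟨x, hx, hgx⟩ := hsurj (v c.a, v c.b) (by
      rw [Prod.norm_def, Real.norm_eq_abs, Real.norm_eq_abs]
      simp only [Prod.fst_sub, Prod.snd_sub]
      refine max_le ?_ ?_ <;> rw [abs_le] <;> constructor <;> linarith)
    let w : Fin d → ℝ := fun i => if i = c.a then x.1 else if i = c.b then x.2 else v i
    have wa : w c.a = x.1 := by simp [w]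
    have wb : w c.b = x.2 := by simp [w, c.hab.symm]
    have wo : ∀ i, i ≠ c.a → i ≠ c.b → w i = v i := fun i h h' => by simp [w, h, h']
    have wp := wo c.p c.hap.symm c.hbp.symm
    have wq := wo c.q c.haq.symm c.hbq.symm
    have hwS : (w c.a, w c.b) = x := by rw [wa, wb]
    refine ⟨F c g w, ⟨w, ⟨?_, ?_⟩, rfl⟩, ?_⟩
    · intro i
      by_cases h : i = c.a
      · rw [h, wa]; exact (hS x hx).1
      · by_cases h' : i = c.b
        · rw [h', wb]; exact (hS x hx).2
        · rw [wo i h h']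
          have h3 := h1 i
          have h4 := h2 i
          simp only [h, h', if_false] at h3 h4
          split_ifs at h3 h4 <;> constructor <;> linarith
    · show (w c.a, w c.b) ∈ S
      rw [hwS]; exact hx
    · funext i
      simp only [Λ, F]
      have tp : theta (w c.p) = 1 / 4 := by rw [wp]; exact theta_mid ⟨hp1, hp2⟩
      have tq : theta (w c.q) = 1 / 4 := by rw [wq]; exact theta_mid ⟨hq1, hq2⟩
      by_cases h : i = c.a
      · rw [if_pos h, h]
        simp only [Sum.elim_inr, Sum.elim_inl, T, if_true]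
        rw [hwS, hgx, tp]
        ring
      · rw [if_neg h]
        by_cases h' : i = c.b
        · rw [if_pos h', h']
          simp only [Sum.elim_inr, Sum.elim_inl, T, if_true, c.hpq.symm, if_false]
          rw [hwS, hgx, tq]
          ring
        · rw [if_neg h']
          exact wo i h h'
  have h0 : (μH[(d : ℝ)] : Measure (Fin d → ℝ)) = volume := by
    have := hausdorffMeasure_pi_real (ι := Fin d)
    rwa [Fintype.card_fin] at this
  have h3 := measure_mono (μ := (volume : Measure (Fin d → ℝ))) hsub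
  rw [vol_box c _ _ _ _ (1 / 4) (3 / 4) (1 / 2) (by norm_num), ← h0] at h3
  refine le_trans (le_of_eq ?_) (h3.trans (hΛ.hausdorffMeasure_image_le (Nat.cast_nonneg d) _))
  rw [← ENNReal.ofReal_mul (by linarith), ← ENNReal.ofReal_mul (by norm_num),
    ← ENNReal.ofReal_mul (by nlinarith)]
  congr 1
  ring

end Pool.Agent.W2helper15.GM
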