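import Mathlib

/-!
# A multi-scale map of the plane with logarithmic cut-offs

`Psi k j` is a Lipschitz map of the plane, supported in the unit square; the limit `PsiL j` maps each
of `8 ^ m` squares of the level `m` onto a square of size `2 ^ (-j - m)`.
-/

set_option autoImplicit false

namespace Pool.Agent.W2helper15.GM

open Finset Filter Topology

/-- the plane, with the maximum norm -/
abbrev P : Type := ℝ × ℝ

/-- a cut-off: `1` up to `1/2`, `0` from `1` on -/
noncomputable def tau (s : ℝ) : ℝ := max 0 (min 1 (2 - 2 * s))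

lemma tau_one {s : ℝ} (h : s ≤ 1 / 2) : tau s = 1 := by
  unfold tau
  rw [min_eq_left (by linarith), max_eq_right (by norm_num)]

lemma tau_zero {s : ℝ} (h : 1 ≤ s) : tau s = 0 := by
  unfold tau
  exact max_eq_left (le_trans (min_le_right _ _) (by linarith))

lemma tau_nonneg (s : ℝ) : 0 ≤ tau s := le_max_left _ _

lemma tau_le_one (s : ℝ) : tau s ≤ 1 := max_le (by norm_num) (min_le_left _ _)

lemma tau_lip (s t : ℝ) : |tau s - tau t| ≤ 2 * |s - t| := by
  unfold tau
  have h1 : |max 0 (min 1 (2 - 2 * s)) - max 0 (min 1 (2 - 2 * t))| ≤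
      |min 1 (2 - 2 * s) - min 1 (2 - 2 * t)| := by
    have := abs_max_sub_max_le_max 0 (min 1 (2 - 2 * s)) 0 (min 1 (2 - 2 * t))
    simpa using this
  have h2 : |min 1 (2 - 2 * s) - min 1 (2 - 2 * t)| ≤ |(2 - 2 * s) - (2 - 2 * t)| := by
    have := abs_min_sub_min_le_max 1 (2 - 2 * s) 1 (2 - 2 * t)
    simpa using this
  have h3 : (2 - 2 * s) - (2 - 2 * t) = -(2 * (s - t)) := by ring
  rw [h3, abs_neg, abs_mul, abs_two] at h2
  linarith

lemma tau_cont : Continuous tau := by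
  unfold tau
  fun_prop

/-- the logarithmic cut-off with `J` dyadic steps -/
noncomputable def u (J : ℕ) (x : P) : ℝ := (∑ i ∈ range J, tau (2 ^ i * ‖x‖)) / J

lemma u_cont (J : ℕ) : Continuous (u J) := by
  unfold u
  refine Continuous.div_const (continuous_finset_sum _ fun i _ => ?_) _
  exact tau_cont.comp (continuous_const.mul continuous_norm)

lemma u_nonneg (J : ℕ) (x : P) : 0 ≤ u J x :=
  div_nonneg (sum_nonneg fun _ _ => tau_nonneg _) (Nat.cast_nonneg _)

lemma u_le_one (J : ℕ) (x : P) : u J x ≤ 1 := by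
  unfold u
  rcases Nat.eq_zero_or_pos J with h | h
  · subst h; simp
  · rw [div_le_one (by exact_mod_cast h)]
    calc (∑ i ∈ range J, tau (2 ^ i * ‖x‖)) ≤ ∑ i ∈ range J, (1 : ℝ) :=
          sum_le_sum fun _ _ => tau_le_one _
      _ = J := by simp

lemma u_core {J : ℕ} (hJ : 1 ≤ J) {x : P} (h : 2 ^ J * ‖x‖ ≤ 1) : u J x = 1 := by
  unfold u
  rw [sum_congr rfl (g := fun _ => (1 : ℝ))]
  · simp only [sum_const, card_range, nsmul_eq_mul, mul_one]
    exact div_self (by exact_mod_cast (by omega : J ≠ 0))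
  · intro i hi
    apply tau_one
    have hi' := mem_range.1 hi
    have h1 : (2 : ℝ) ^ (i + 1) ≤ 2 ^ J := pow_le_pow_right₀ (by norm_num) (by omega)
    have h2 := mul_le_mul_of_nonneg_right h1 (norm_nonneg x)
    rw [pow_succ] at h2
    linarith

lemma u_out {J : ℕ} {x : P} (h : 1 ≤ ‖x‖) : u J x = 0 := by
  unfold u
  rw [sum_eq_zero, zero_div]
  intro i _
  apply tau_zero
  have h1 : (1 : ℝ) ≤ 2 ^ i := one_le_pow₀ (by norm_num)
  nlinarith

/-- the annuli -/
def Ann (m : ℕ) : Set P := {x | 1 / 2 ≤ 2 ^ m * ‖x‖ ∧ 2 ^ m * ‖x‖ ≤ 1}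

lemma u_ann {J m : ℕ} {x y : P} (hx : x ∈ Ann m) (hy : y ∈ Ann m) :
    |u J x - u J y| ≤ 2 * 2 ^ m / J * ‖x - y‖ := by
  unfold u
  rw [← sub_div, ← sum_sub_distrib, abs_div, Nat.abs_cast, div_mul_eq_mul_div]
  refine div_le_div_of_nonneg_right ?_ (Nat.cast_nonneg _)
  have key : ∀ i ∈ range J, |tau (2 ^ i * ‖x‖) - tau (2 ^ i * ‖y‖)| ≤
      if i = m then 2 * 2 ^ m * ‖x - y‖ else 0 := by
    intro i _
    split_ifs with him
    · subst him
      refine (tau_lip _ _).trans ?_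
      rw [← mul_sub, abs_mul, abs_of_nonneg (by positivity : (0 : ℝ) ≤ 2 ^ i)]
      have := abs_norm_sub_norm_le x y
      have h2 : (0 : ℝ) ≤ 2 ^ i := by positivity
      nlinarith
    · rcases lt_or_gt_of_ne him with h | h
      · have h1 : (2 : ℝ) ^ (i + 1) ≤ 2 ^ m := pow_le_pow_right₀ (by norm_num) (by omega)
        have h2 := mul_le_mul_of_nonneg_right h1 (norm_nonneg x)
        have h3 := mul_le_mul_of_nonneg_right h1 (norm_nonneg y)
        rw [pow_succ] at h2 h3
        rw [tau_one (by linarith [hx.2]), tau_one (by linarith [hy.2])]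
        simp
      · have h1 : (2 : ℝ) ^ (m + 1) ≤ 2 ^ i := pow_le_pow_right₀ (by norm_num) (by omega)
        have h2 := mul_le_mul_of_nonneg_right h1 (norm_nonneg x)
        have h3 := mul_le_mul_of_nonneg_right h1 (norm_nonneg y)
        rw [pow_succ] at h2 h3
        rw [tau_zero (by linarith [hx.1]), tau_zero (by linarith [hy.1])]
        simp
  calc |∑ i ∈ range J, (tau (2 ^ i * ‖x‖) - tau (2 ^ i * ‖y‖))|
      ≤ ∑ i ∈ range J, |tau (2 ^ i * ‖x‖) - tau (2 ^ i * ‖y‖)| := abs_sum_le_sum_abs _ _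
    _ ≤ ∑ i ∈ range J, if i = m then 2 * 2 ^ m * ‖x - y‖ else 0 := sum_le_sum key
    _ ≤ 2 * 2 ^ m * ‖x - y‖ := by
        rw [sum_ite_eq']
        split_ifs
        · exact le_rfl
        · positivity

/-- index set of the children -/
abbrev I8 : Type := Bool × Bool × Bool

/-- positions of the children -/
noncomputable def pos (i : I8) : P :=
  ((if i.1 then 1 / 2 else -(1 / 2)) + (if i.2.1 then 1 / 4 else -(1 / 4)),
    if i.2.2 then 1 / 2 else -(1 / 2))

/-- directions of the children -/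
noncomputable def dir (i : I8) : P :=
  ((if i.1 then 1 / 2 else -(1 / 2)), if i.2.1 then 1 / 2 else -(1 / 2))

lemma pos_norm (i : I8) : ‖pos i‖ ≤ 3 / 4 := by
  obtain ⟨a, b, c⟩ := i
  rw [Prod.norm_def, Real.norm_eq_abs, Real.norm_eq_abs]
  refine max_le ?_ ?_ <;> rw [abs_le] <;> cases a <;> cases b <;> cases c <;>
    simp [pos] <;> norm_num

lemma dir_norm (i : I8) : ‖dir i‖ = 1 / 2 := by
  obtain ⟨a, b, c⟩ := i
  rw [Prod.norm_def, Real.norm_eq_abs, Real.norm_eq_abs]
  cases a <;> cases b <;> simp [dir] <;> norm_num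

lemma pos_sep {i j : I8} (h : i ≠ j) : 1 / 2 ≤ ‖pos i - pos j‖ := by
  obtain ⟨a, b, c⟩ := i
  obtain ⟨a', b', c'⟩ := j
  rw [Prod.norm_def, Real.norm_eq_abs, Real.norm_eq_abs, le_max_iff, le_abs', le_abs']
  cases a <;> cases b <;> cases c <;> cases a' <;> cases b' <;> cases c' <;>
    first
    | exact absurd rfl h
    | (simp only [pos, Prod.fst_sub, Prod.snd_sub, if_true, if_false, Bool.false_eq_true]
       norm_num)

/-- the zoom factor to the core of a child -/
noncomputable def zf (j : ℕ) : ℝ := 8 * 2 ^ (4 ^ j)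

lemma zf_ge (j : ℕ) : 16 ≤ zf j := by
  unfold zf
  have h : (2 : ℝ) ^ 1 ≤ 2 ^ (4 ^ j) := pow_le_pow_right₀ (by norm_num) (Nat.one_le_pow _ _ (by norm_num))
  linarith

lemma zf_pos (j : ℕ) : 0 < zf j := by linarith [zf_ge j]

/-- the maps -/
noncomputable def Psi : ℕ → ℕ → P → P
  | 0, _, _ => 0
  | (k + 1), j, x => ∑ i : I8, (((1 / 2 : ℝ) ^ j * u (4 ^ j) ((8 : ℝ) • (x - pos i))) • dir i +
      Psi k (j + 1) (zf j • (x - pos i)))

lemma Psi_zero (j : ℕ) (x : P) : Psi 0 j x = 0 := rfl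

lemma Psi_out (k j : ℕ) (x : P) (h : 1 ≤ ‖x‖) : Psi k j x = 0 := by
  induction k generalizing j x with
  | zero => rfl
  | succ k ih =>
    show ∑ i : I8, _ = _
    refine sum_eq_zero fun i _ => ?_
    have h1 := norm_sub_norm_le x (pos i)
    have h2 := pos_norm i
    rw [u_out, ih]
    · simp
    · rw [norm_smul, Real.norm_of_nonneg (zf_pos j).le]
      nlinarith [zf_ge j]
    · rw [norm_smul, Real.norm_of_nonneg (by norm_num : (0 : ℝ) ≤ 8)]
      linarith

lemma Psi_flat (k j : ℕ) (x : P) (h : ∀ i, 1 / 8 ≤ ‖x - pos i‖) : Psi k j x = 0 := by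
  cases k with
  | zero => rfl
  | succ k =>
    show ∑ i : I8, _ = _
    refine sum_eq_zero fun i _ => ?_
    have h1 := h i
    rw [u_out, Psi_out]
    · simp
    · rw [norm_smul, Real.norm_of_nonneg (zf_pos j).le]
      nlinarith [zf_ge j]
    · rw [norm_smul, Real.norm_of_nonneg (by norm_num : (0 : ℝ) ≤ 8)]
      linarith

lemma far_of_near {x : P} {i i' : I8} (h : ‖x - pos i‖ ≤ 1 / 8) (hne : i' ≠ i) :
    1 / 8 ≤ ‖x - pos i'‖ := by
  have h1 := pos_sep hne
  have h2 : ‖pos i' - pos i‖ ≤ ‖x - pos i‖ + ‖x - pos i'‖ := by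
    have : pos i' - pos i = (x - pos i) - (x - pos i') := by abel
    rw [this]
    exact norm_sub_le _ _
  linarith

lemma Psi_child (k j : ℕ) (x : P) (i : I8) (h : ‖x - pos i‖ ≤ 1 / 8) :
    Psi (k + 1) j x = ((1 / 2 : ℝ) ^ j * u (4 ^ j) ((8 : ℝ) • (x - pos i))) • dir i +
      Psi k (j + 1) (zf j • (x - pos i)) := by
  show ∑ i : I8, _ = _
  rw [sum_eq_single i]
  · intro i' _ hne
    have h1 := far_of_near h hne
    rw [u_out, Psi_out]
    · simp
    · rw [norm_smul, Real.norm_of_nonneg (zf_pos j).le]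
      nlinarith [zf_ge j]
    · rw [norm_smul, Real.norm_of_nonneg (by norm_num : (0 : ℝ) ≤ 8)]
      linarith
  · intro h; exact absurd (mem_univ _) h

lemma Psi_norm (k j : ℕ) (x : P) : ‖Psi k j x‖ ≤ (1 / 2) ^ j := by
  induction k generalizing j x with
  | zero => rw [Psi_zero, norm_zero]; positivity
  | succ k ih =>
    by_cases hc : ∃ i, ‖x - pos i‖ ≤ 1 / 8
    · obtain ⟨i, hi⟩ := hc
      rw [Psi_child k j x i hi]
      refine (norm_add_le _ _).trans ?_
      have h1 := ih (j + 1) (zf j • (x - pos i))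
      rw [norm_smul, dir_norm, norm_mul, Real.norm_of_nonneg (u_nonneg _ _),
        Real.norm_of_nonneg (by positivity : (0 : ℝ) ≤ (1 / 2) ^ j)]
      have h2 := u_le_one (4 ^ j) ((8 : ℝ) • (x - pos i))
      have h3 : (0 : ℝ) ≤ (1 / 2) ^ j := by positivity
      rw [pow_succ] at h1
      nlinarith
    · push Not at hc
      rw [Psi_flat _ _ _ fun i => (hc i).le, norm_zero]
      positivity

lemma Psi_cont (k j : ℕ) : Continuous (Psi k j) := by
  induction k generalizing j with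
  | zero => exact continuous_const
  | succ k ih =>
    show Continuous fun x => ∑ i : I8, (((1 / 2 : ℝ) ^ j * u (4 ^ j) ((8 : ℝ) • (x - pos i))) • dir i +
      Psi k (j + 1) (zf j • (x - pos i)))
    refine continuous_finset_sum _ fun i _ => Continuous.add ?_ ?_
    · refine Continuous.smul (continuous_const.mul ((u_cont _).comp ?_)) continuous_const
      fun_prop
    · refine (ih (j + 1)).comp ?_
      fun_prop

lemma Psi_diff (k j : ℕ) (x : P) : ‖Psi (k + 1) j x - Psi k j x‖ ≤ (1 / 2) ^ j * (1 / 2) ^ k := by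
  induction k generalizing j x with
  | zero =>
    rw [Psi_zero, sub_zero, pow_zero, mul_one]
    exact Psi_norm _ _ _
  | succ k ih =>
    by_cases hc : ∃ i, ‖x - pos i‖ ≤ 1 / 8
    · obtain ⟨i, hi⟩ := hc
      rw [Psi_child _ j x i hi, Psi_child _ j x i hi, add_sub_add_left_eq_sub]
      refine (ih (j + 1) _).trans (le_of_eq ?_)
      ring
    · push Not at hc
      rw [Psi_flat _ _ _ fun i => (hc i).le, Psi_flat _ _ _ fun i => (hc i).le, sub_zero, norm_zero]
      positivity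

/-- the limit -/
noncomputable def PsiL (j : ℕ) (x : P) : P := limUnder atTop fun k => Psi k j x

lemma dist_le (k j : ℕ) (x : P) :
    dist (Psi k j x) (Psi (k + 1) j x) ≤ (1 / 2) ^ j * (1 / 2) ^ k := by
  rw [dist_comm, dist_eq_norm]
  exact Psi_diff k j x

lemma tendsto_PsiL (j : ℕ) (x : P) : Tendsto (fun k => Psi k j x) atTop (𝓝 (PsiL j x)) :=
  (cauchySeq_of_le_geometric (1 / 2) ((1 / 2) ^ j) (by norm_num)
    fun k => dist_le k j x).tendsto_limUnder

lemma Psi_PsiL (k j : ℕ) (x : P) : ‖Psi k j x - PsiL j x‖ ≤ 2 * ((1 / 2) ^ j * (1 / 2) ^ k) := by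
  rw [← dist_eq_norm]
  have := dist_le_of_le_geometric_of_tendsto (1 / 2) ((1 / 2 : ℝ) ^ j) (by norm_num)
    (fun k => dist_le k j x) (tendsto_PsiL j x) k
  refine this.trans (le_of_eq ?_)
  ring

lemma PsiL_out (j : ℕ) (x : P) (h : 1 ≤ ‖x‖) : PsiL j x = 0 :=
  tendsto_nhds_unique (tendsto_PsiL j x) (by simp only [Psi_out _ j x h]; exact tendsto_const_nhds)

lemma PsiL_child (j : ℕ) (x : P) (i : I8) (h : ‖x - pos i‖ ≤ 1 / 8) :
    PsiL j x = ((1 / 2 : ℝ) ^ j * u (4 ^ j) ((8 : ℝ) • (x - pos i))) • dir i +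
      PsiL (j + 1) (zf j • (x - pos i)) := by
  refine tendsto_nhds_unique ((tendsto_add_atTop_iff_nat 1).2 (tendsto_PsiL j x)) ?_
  simp only [Psi_child _ j x i h]
  exact tendsto_const_nhds.add (tendsto_PsiL _ _)

lemma PsiL_norm (j : ℕ) (x : P) : ‖PsiL j x‖ ≤ (1 / 2) ^ j :=
  le_of_tendsto (tendsto_PsiL j x).norm (Eventually.of_forall fun k => Psi_norm k j x)

lemma PsiL_cont (j : ℕ) : Continuous (PsiL j) := by
  have h : TendstoUniformly (fun k => Psi k j) (PsiL j) atTop := by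
    rw [Metric.tendstoUniformly_iff]
    intro ε hε
    have h1 : Tendsto (fun k : ℕ => 2 * ((1 / 2 : ℝ) ^ j * (1 / 2) ^ k)) atTop (𝓝 0) := by
      have := (tendsto_pow_atTop_nhds_zero_of_lt_one (by norm_num : (0 : ℝ) ≤ 1 / 2)
        (by norm_num)).const_mul (2 * (1 / 2 : ℝ) ^ j)
      simp only [mul_zero] at this
      refine this.congr fun k => by ring
    filter_upwards [h1.eventually_lt_const hε] with k hk x
    rw [dist_comm, dist_eq_norm]
    exact (Psi_PsiL k j x).trans_lt hk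
  exact h.continuous (Frequently.of_forall fun k => Psi_cont k j)

lemma near_core (j : ℕ) (i : I8) (y : P) (hy : ‖y‖ ≤ 1) :
    ‖pos i + (zf j)⁻¹ • y - pos i‖ ≤ 1 / 16 ∧
    u (4 ^ j) ((8 : ℝ) • (pos i + (zf j)⁻¹ • y - pos i)) = 1 ∧
    zf j • (pos i + (zf j)⁻¹ • y - pos i) = y := by
  have h0 : pos i + (zf j)⁻¹ • y - pos i = (zf j)⁻¹ • y := by abel
  have hz := zf_ge j
  have hz0 := zf_pos j
  rw [h0]
  refine ⟨?_, ?_, ?_⟩
  · rw [norm_smul, norm_inv, Real.norm_of_nonneg hz0.le, inv_mul_le_iff₀ hz0]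
    linarith
  · apply u_core (Nat.one_le_pow _ _ (by norm_num))
    rw [norm_smul, norm_smul, norm_inv, Real.norm_of_nonneg hz0.le,
      Real.norm_of_nonneg (by norm_num : (0 : ℝ) ≤ 8)]
    have : (2 : ℝ) ^ 4 ^ j * (8 * ((zf j)⁻¹ * ‖y‖)) = (zf j * (zf j)⁻¹) * ‖y‖ := by
      unfold zf; ring
    rw [this, mul_inv_cancel₀ hz0.ne', one_mul]
    exact hy
  · rw [smul_smul, mul_inv_cancel₀ hz0.ne', one_smul]

lemma dense_image (k j : ℕ) (t : P) (ht : ‖t‖ ≤ (1 / 2) ^ j) :
    ∃ x : P, ‖x‖ ≤ 1 ∧ ‖Psi k j x - t‖ ≤ (1 / 2) ^ j * (1 / 2) ^ k := by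
  induction k generalizing j t with
  | zero =>
    refine ⟨0, by simp, ?_⟩
    rw [Psi_zero, zero_sub, norm_neg, pow_zero, mul_one]
    exact ht
  | succ k ih =>
    obtain ⟨i, hi⟩ : ∃ i : I8, ‖t - ((1 / 2 : ℝ) ^ j) • dir i‖ ≤ (1 / 2) ^ (j + 1) := by
      refine ⟨(decide (0 ≤ t.1), decide (0 ≤ t.2), true), ?_⟩
      rw [Prod.norm_def, Real.norm_eq_abs, Real.norm_eq_abs] at ht
      have h1 := le_trans (le_max_left _ _) ht
      have h2 := le_trans (le_max_right _ _) ht
      rw [abs_le] at h1 h2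
      rw [Prod.norm_def, Real.norm_eq_abs, Real.norm_eq_abs, pow_succ]
      refine max_le ?_ ?_
      · rw [abs_le]
        simp only [dir, Prod.fst_sub, Prod.smul_fst, smul_eq_mul, decide_eq_true_eq]
        split_ifs with h
        · constructor <;> nlinarith
        · push Not at h
          constructor <;> nlinarith
      · rw [abs_le]
        simp only [dir, Prod.snd_sub, Prod.smul_snd, smul_eq_mul, decide_eq_true_eq]
        split_ifs with h
        · constructor <;> nlinarith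
        · push Not at h
          constructor <;> nlinarith
    obtain ⟨y, hy, hy'⟩ := ih (j + 1) _ hi
    obtain ⟨h1, h2, h3⟩ := near_core j i y hy
    refine ⟨pos i + (zf j)⁻¹ • y, ?_, ?_⟩
    · have h4 := pos_norm i
      have h5 : ‖pos i + (zf j)⁻¹ • y‖ ≤ ‖pos i‖ + ‖pos i + (zf j)⁻¹ • y - pos i‖ := by
        have := norm_add_le (pos i) (pos i + (zf j)⁻¹ • y - pos i)
        rwa [add_sub_cancel] at this
      linarith
    · rw [Psi_child k j _ i (by linarith), h2, h3, mul_one]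
      have h4 : (1 / 2 : ℝ) ^ j • dir i + Psi k (j + 1) y - t =
          Psi k (j + 1) y - (t - (1 / 2 : ℝ) ^ j • dir i) := by abel
      rw [h4]
      refine hy'.trans (le_of_eq ?_)
      ring

lemma surj (j : ℕ) (t : P) (ht : ‖t‖ ≤ (1 / 2) ^ j) : ∃ x : P, ‖x‖ ≤ 1 ∧ PsiL j x = t := by
  have hK : IsCompact (PsiL j '' Metric.closedBall 0 1) :=
    (isCompact_closedBall 0 1).image (PsiL_cont j)
  have h1 : t ∈ closure (PsiL j '' Metric.closedBall 0 1) := by
    rw [Metric.mem_closure_iff]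
    intro ε hε
    have h1 : Tendsto (fun k : ℕ => 3 * ((1 / 2 : ℝ) ^ j * (1 / 2) ^ k)) atTop (𝓝 0) := by
      have := (tendsto_pow_atTop_nhds_zero_of_lt_one (by norm_num : (0 : ℝ) ≤ 1 / 2)
        (by norm_num)).const_mul (3 * (1 / 2 : ℝ) ^ j)
      simp only [mul_zero] at this
      refine this.congr fun k => by ring
    obtain ⟨k, hk⟩ := (h1.eventually_lt_const hε).exists
    obtain ⟨x, hx, hx'⟩ := dense_image k j t ht
    refine ⟨PsiL j x, ⟨x, by simpa using hx, rfl⟩, ?_⟩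
    rw [dist_eq_norm]
    have h2 := Psi_PsiL k j x
    have h3 : t - PsiL j x = (Psi k j x - PsiL j x) - (Psi k j x - t) := by abel
    rw [h3]
    refine (norm_sub_le _ _).trans_lt ?_
    linarith
  rw [hK.isClosed.closure_eq] at h1
  obtain ⟨x, hx, hx'⟩ := h1
  exact ⟨x, by simpa using hx, hx'⟩

end Pool.Agent.W2helper15.GM
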